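import Pool.Agent.H413.S3.Assem
import Pool.Graph.R_seed8.H920R2.Trans

/-!
MP_19ffc6_ag: the varieties of (partially symmetric) tensors of border rank at most three, that is
the affine cones over the third secant varieties of the Segre-Veronese varieties, have
resolutions of singularities, over every infinite field.
-/

set_option autoImplicit false

open AlgebraicGeometry CategoryTheory Pool.Agent.H920R2 Pool.Agent.H413.S3

universe u

namespace Pool.Agent.Results.MP_19ffc6_ag.BorderRankThree

section defs

variable (k : Type u) [Field k] {ι ρ : Type} [Fintype ρ] (n : ι → ℕ) (τ : ρ → ι)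

/-- The entries of the tensor `∑ c, a c • ⨂ r, v c (τ r)`, for three scalars `a c` and three
families of vectors `v c i` in `k ^ (n i + 1)`. -/
def tensor (a : Fin 3 → k) (v : Fin 3 → ∀ i, Fin (n i + 1) → k) :
    (∀ r, Fin (n (τ r) + 1)) → k :=
  fun j => ∑ c, a c * ∏ r, v c (τ r) (j r)

/-- The tensors of the above form. -/
def rankThree : Set ((∀ r, Fin (n (τ r) + 1)) → k) :=
  {t | ∃ a v, t = tensor k n τ a v}

/-- The coordinate ring of the Zariski closure of the set of the above tensors. -/
abbrev CoordRing : Type u :=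
  MvPolynomial (∀ r, Fin (n (τ r) + 1)) k ⧸ MvPolynomial.vanishingIdeal k (rankThree k n τ)

/-- The Zariski closure of the set of the above tensors. -/
noncomputable def secVar : Scheme.{u} := Spec (CommRingCat.of (CoordRing k n τ))

/-- The structure morphism. -/
noncomputable def secStr : secVar k n τ ⟶ Spec (CommRingCat.of k) :=
  Spec.map (CommRingCat.ofHom (algebraMap k (CoordRing k n τ)))

end defs

section param

variable (k : Type u) [Field k] {ι ρ : Type} [Fintype ρ] (n : ι → ℕ) (τ : ρ → ι)

/-- The entries of the generic tensor in affine coordinates, as polynomials. -/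
noncomputable def affP (j : ∀ r, Fin (n (τ r) + 1)) :
    MvPolynomial (Fin 3 × Option (Crd n)) k :=
  ∑ c, MvPolynomial.X (c, none) * ∏ r, (Fin.cons 1 (fun l => MvPolynomial.X (c, some ⟨τ r, l⟩)) :
    Fin (n (τ r) + 1) → MvPolynomial (Fin 3 × Option (Crd n)) k) (j r)

/-- The entries of the generic tensor in homogeneous coordinates, as polynomials. -/
noncomputable def homP (j : ∀ r, Fin (n (τ r) + 1)) :
    MvPolynomial (Fin 3 × Option (Σ i, Fin (n i + 1))) k :=
  ∑ c, MvPolynomial.X (c, none) * ∏ r, MvPolynomial.X (c, some ⟨τ r, j r⟩)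

variable {k n τ}

lemma eval_affP (w : Fin 3 × Option (Crd n) → k) (j : ∀ r, Fin (n (τ r) + 1)) :
    MvPolynomial.eval w (affP k n τ j) = tensor k n τ (fun c => w (c, none))
      (fun c i => Fin.cons 1 fun l => w (c, some ⟨i, l⟩)) j := by
  rw [affP, map_sum, tensor]
  refine Finset.sum_congr rfl fun c _ => ?_
  rw [map_mul, map_prod, MvPolynomial.eval_X]
  refine congrArg _ (Finset.prod_congr rfl fun r _ => ?_)
  refine Fin.cases ?_ (fun l => ?_) (j r)
  · rw [Fin.cons_zero, Fin.cons_zero, map_one]
  · rw [Fin.cons_succ, Fin.cons_succ, MvPolynomial.eval_X]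

lemma eval_homP (w : Fin 3 × Option (Σ i, Fin (n i + 1)) → k) (j : ∀ r, Fin (n (τ r) + 1)) :
    MvPolynomial.eval w (homP k n τ j) = tensor k n τ (fun c => w (c, none))
      (fun c i l => w (c, some ⟨i, l⟩)) j := by
  rw [homP, map_sum, tensor]
  refine Finset.sum_congr rfl fun c _ => ?_
  rw [map_mul, map_prod, MvPolynomial.eval_X]
  exact congrArg _ (Finset.prod_congr rfl fun r _ => MvPolynomial.eval_X _)

lemma eval_aeval {σ σ' : Type} (w : σ → k) (P : σ' → MvPolynomial σ k)
    (p : MvPolynomial σ' k) : MvPolynomial.eval w (MvPolynomial.aeval P p) =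
      MvPolynomial.eval (fun j => MvPolynomial.eval w (P j)) p := by
  induction p using MvPolynomial.induction_on with
  | C r => rw [MvPolynomial.aeval_C, MvPolynomial.algebraMap_eq, MvPolynomial.eval_C,
      MvPolynomial.eval_C]
  | add p q hp hq => rw [map_add, map_add, map_add, hp, hq]
  | mul_X p i hp => rw [map_mul, map_mul, map_mul, hp, MvPolynomial.aeval_X, MvPolynomial.eval_X]

/-- Polynomials which vanish on the generic tensor in affine coordinates vanish on all
tensors. -/
theorem van_iff [Finite ι] [Infinite k] (p : MvPolynomial (∀ r, Fin (n (τ r) + 1)) k) :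
    MvPolynomial.aeval (affP k n τ) p = 0 ↔
      p ∈ MvPolynomial.vanishingIdeal k (rankThree k n τ) := by
  classical
  have := Fintype.ofFinite ι
  constructor
  · intro hp
    have haff : ∀ (a : Fin 3 → k) (v : Fin 3 → ∀ i, Fin (n i + 1) → k), (∀ c i, v c i 0 ≠ 0) →
        MvPolynomial.eval (tensor k n τ a v) p = 0 := by
      intro a v hv
      let w : Fin 3 × Option (Crd n) → k := fun x => match x with
        | (c, none) => a c * ∏ r, v c (τ r) 0
        | (c, some ⟨i, l⟩) => v c i l.succ / v c i 0
      have h1 := eval_aeval w (affP k n τ) p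
      rw [hp, map_zero] at h1
      rw [h1]
      refine congrArg (fun t => MvPolynomial.eval t p) ?_
      funext j
      rw [eval_affP, tensor, tensor]
      refine Finset.sum_congr rfl fun c _ => ?_
      change _ = (a c * ∏ r, v c (τ r) 0) * _
      rw [mul_assoc, ← Finset.prod_mul_distrib]
      refine congrArg _ (Finset.prod_congr rfl fun r _ => ?_)
      refine Fin.cases ?_ (fun l => ?_) (j r)
      · rw [Fin.cons_zero, mul_one]
      · rw [Fin.cons_succ]
        change _ = _ * (v c (τ r) l.succ / v c (τ r) 0)
        rw [mul_div_cancel₀ _ (hv c (τ r))]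
    have hQ : MvPolynomial.aeval (homP k n τ) p *
        ∏ c : Fin 3, ∏ i : ι, MvPolynomial.X (c, some ⟨i, 0⟩) = 0 := by
      apply MvPolynomial.funext
      intro w
      rw [map_zero, map_mul, map_prod]
      by_cases hw : ∀ c i, w (c, some ⟨i, 0⟩) ≠ 0
      · rw [eval_aeval]
        have h2 : (fun j => MvPolynomial.eval w (homP k n τ j)) =
            tensor k n τ (fun c => w (c, none)) (fun c i l => w (c, some ⟨i, l⟩)) := by
          funext j
          exact eval_homP w j
        rw [h2, haff _ _ hw, zero_mul]
      · push Not at hw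
        obtain ⟨c, i, hw⟩ := hw
        rw [Finset.prod_eq_zero (Finset.mem_univ c), mul_zero]
        rw [map_prod]
        refine Finset.prod_eq_zero (Finset.mem_univ i) ?_
        rw [MvPolynomial.eval_X]
        exact hw
    have hQ0 : MvPolynomial.aeval (homP k n τ) p = 0 := by
      refine (mul_eq_zero.1 hQ).resolve_right ?_
      exact Finset.prod_ne_zero_iff.2 fun c _ => Finset.prod_ne_zero_iff.2 fun i _ =>
        MvPolynomial.X_ne_zero _
    rw [MvPolynomial.mem_vanishingIdeal_iff]
    rintro _ ⟨a, v, rfl⟩
    let w : Fin 3 × Option (Σ i, Fin (n i + 1)) → k := fun x => match x with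
      | (c, none) => a c
      | (c, some ⟨i, l⟩) => v c i l
    have h1 := eval_aeval w (homP k n τ) p
    rw [hQ0, map_zero] at h1
    have h2 : (fun j => MvPolynomial.eval w (homP k n τ j)) = tensor k n τ a v := by
      funext j
      rw [eval_homP]
    rw [h2] at h1
    exact h1.symm
  · intro hp
    apply MvPolynomial.funext
    intro w
    rw [map_zero, eval_aeval]
    rw [MvPolynomial.mem_vanishingIdeal_iff] at hp
    have h2 : (fun j => MvPolynomial.eval w (affP k n τ j)) =
        tensor k n τ (fun c => w (c, none)) (fun c i => Fin.cons 1 fun l => w (c, some ⟨i, l⟩)) := by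
      funext j
      exact eval_affP w j
    rw [h2]
    exact hp _ ⟨_, _, rfl⟩

/-- The generic tensor in the function field. -/
lemma Tent_eq [Finite ι] (j : ∀ r, Fin (n (τ r) + 1)) :
    Tent k n τ j = algebraMap _ (LL k n) (affP k n τ j) := by
  classical
  rw [Tent, affP, map_sum]
  refine Finset.sum_congr rfl fun c _ => ?_
  rw [map_mul, map_prod, mono, Finset.prod_apply]
  change algebraMap _ _ (MvPolynomial.X (c, none)) * _ = _
  refine congrArg _ (Finset.prod_congr rfl fun r _ => ?_)
  refine Fin.cases ?_ (fun l => ?_) (j r)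
  · rw [Fin.cons_zero, map_one, hcd_zero, Pi.one_apply]
  · rw [Fin.cons_succ, hcd_succ]
    rfl

end param

/-- Let `k` be an infinite field, of any characteristic. Consider tensors with finitely many slots
`r : ρ`, partially symmetric of a given shape: the vector in slot `r` of a rank one tensor
depends only on the class `τ r` of the slot, and the slots of class `i` carry the space
`k ^ (n i + 1)`. Assume that there are three disjoint groups of slots on which the tensor products
of the spaces have dimensions at least `3`, `3` and `2`. Then the Zariski closure of the set of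
linear combinations of three tensors of rank one is a variety and has a resolution of
singularities. -/
theorem result (k : Type u) [Field k] [Infinite k] {ι ρ : Type} [Fintype ι] [Fintype ρ]
    (n : ι → ℕ) (τ : ρ → ι) (hτ : Function.Surjective τ) (GA GB GC : Finset ρ)
    (hAB : Disjoint GA GB) (hAC : Disjoint GA GC) (hBC : Disjoint GB GC)
    (hA : 3 ≤ ∏ r ∈ GA, (n (τ r) + 1)) (hB : 3 ≤ ∏ r ∈ GB, (n (τ r) + 1))
    (hC : 2 ≤ ∏ r ∈ GC, (n (τ r) + 1)) :
    (AlgebraicGeometry.IsIntegral (secVar k n τ) ∧ IsSeparated (secStr k n τ) ∧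
      LocallyOfFiniteType (secStr k n τ) ∧ QuasiCompact (secStr k n τ)) ∧
    ∃ (Y : Scheme.{u}) (f : Y ⟶ secVar k n τ),
      AlgebraicGeometry.IsIntegral Y ∧ AlgebraicGeometry.IsProper f ∧
      AlgebraicGeometry.Smooth (f ≫ secStr k n τ) ∧
      ∃ U : (secVar k n τ).Opens, Dense (U : Set (secVar k n τ)) ∧ IsIso (f ∣_ U) := by
  classical
  let π : MvPolynomial (∀ r, Fin (n (τ r) + 1)) k →ₐ[k] LL k n :=
    MvPolynomial.aeval (Tent k n τ)
  have hπ : ∀ p, π p = algebraMap _ (LL k n) (MvPolynomial.aeval (affP k n τ) p) := by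
    intro p
    have h1 : π = (IsScalarTower.toAlgHom k (MvPolynomial (Fin 3 × Option (Crd n)) k)
        (LL k n)).comp (MvPolynomial.aeval (affP k n τ)) := by
      apply MvPolynomial.algHom_ext
      intro j
      rw [AlgHom.comp_apply, MvPolynomial.aeval_X, MvPolynomial.aeval_X]
      exact Tent_eq j
    rw [h1]
    rfl
  have hker : ∀ p, π p = 0 ↔ p ∈ MvPolynomial.vanishingIdeal k (rankThree k n τ) := by
    intro p
    rw [hπ, ← van_iff, map_eq_zero_iff _ (IsFractionRing.injective _ (LL k n))]
  let g : CoordRing k n τ →ₐ[k] LL k n := Ideal.Quotient.liftₐ _ π fun p hp => (hker p).2 hp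
  have hg : Function.Injective g := by
    rw [injective_iff_map_eq_zero]
    intro x hx
    obtain ⟨f, rfl⟩ := Ideal.Quotient.mk_surjective x
    rw [Ideal.Quotient.eq_zero_iff_mem]
    exact (hker f).1 hx
  have hgr : g.range = TA k n τ := by
    apply le_antisymm
    · rintro _ ⟨x, rfl⟩
      obtain ⟨f, rfl⟩ := Ideal.Quotient.mk_surjective x
      change π f ∈ TA k n τ
      rw [TA, Algebra.adjoin_range_eq_range_aeval]
      exact ⟨f, rfl⟩
    · rw [TA, Algebra.adjoin_le_iff]
      rintro _ ⟨j, rfl⟩
      exact ⟨Ideal.Quotient.mk _ (MvPolynomial.X j), MvPolynomial.aeval_X _ _⟩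
  have hdom : IsDomain (CoordRing k n τ) := hg.isDomain g.toRingHom
  refine ⟨isVariety_spec, ?_⟩
  have hres := hasResolution_TA (k := k) (n := n) hτ GA GB GC hAB hAC hBC hA hB hC
  let e : TA k n τ ≃ₐ[k] CoordRing k n τ :=
    (Subalgebra.equivOfEq _ _ hgr.symm).trans (AlgEquiv.ofInjective g hg).symm
  exact hasResolution_congr e hres

end Pool.Agent.Results.MP_19ffc6_ag.BorderRankThree
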