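import Pool.Agent.H893.TW.Cls
import Pool.Agent.H893.EC.Main
import Pool.Agent.H893.EC.Desc
import Pool.Agent.H893.DD.P_rank

/-!
MP_19ffc6_ag: log uniformization of a class of valuations of arbitrary rank with defect, which is
closed under composition, under towers without defect and under henselian descent, in positive
characteristic and in all dimensions.

Let `k` be a perfect field of characteristic `p > 0`. We call a valuation ring of a finitely
generated field `K` over `k` nearly Abhyankar if it has rank one, and if it misses equality in the
Abhyankar inequality by at most one: `tr.deg(K / k)` is `r + s` or `r + s + 1`, where `r ≥ 1` is the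
rational rank and `s` is the transcendence degree of the residue field; in the second case the
residue field has to be finitely generated over `k`, and infinite if `r = 1`. In the second case the
value group is arbitrary, and the finite extensions of `K` over the subfields generated by
transcendence bases can have an arbitrary defect.

We call it ruled of deficiency two if it has rank one, its residue field is finitely generated over
`k`, `tr.deg(K / k) = r + s + 2` with `r ≥ 2`, and `K = E(t)` for a finitely generated subfield `E`
of the transcendence degree `r + s + 1` over `k` which contains elements with `r` independent values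
and lifts of the elements of a separating transcendence basis of the residue field. (The first case
are the valuations of `k(x₁, x₂, x₃, x₄)` with the residue field `k` and the rational rank `2`, for
which `x₁` and `x₂` have independent values.)

Let `Admissible k` be the smallest class of valuation rings of extension fields of `k` which
contains the nearly Abhyankar ones, the ruled ones of deficiency two, the discrete and the divergent
ones, and the ones which are known to be log uniformizable (for example, by Cossart and Piltant, if
the transcendence degree is at most `3`), and which is closed under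

* composition,
* towers without defect,
* henselian descent: if `V` is a valuation ring of rank one of a finite extension `L` of `F` which
  lies in the henselization of `F`, and if `V` is in the class, then `V ∩ F` is in the class.

All valuation rings in the class are log uniformizable on all affine models. In particular this
holds for every valuation ring all of whose components of rank one are nearly Abhyankar or ruled of
deficiency two. The rank is arbitrary, and a valuation ring of rank `n` in the class can miss
equality in the Abhyankar inequality by `2 n` or by more.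

Special case: let `X` be a variety of dimension `n ≥ 3` over an algebraically closed field of
positive characteristic; then all valuations of rank one and of rational rank at least `n - 1` of
its function field are in the class. (For every perfect field `k` it contains all valuations of rank
one with `tr.deg(K / k) = r + s + 1`, `r ≥ 2`, with a finitely generated residue field.)

Comparison: in positive characteristic and in dimension at least four, local uniformization was
known for Abhyankar valuations (Knaf and Kuhlmann; Teissier, Cutkosky), for discrete valuations, and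
for valuations without defect which are described by key polynomials (San Saturnino, Spivakovsky and
others); for arbitrary valuations it was known only after a finite extension of the function field
(de Jong, Knaf and Kuhlmann, Temkin). The defect is the known obstruction (Kuhlmann, Cutkosky and
Piltant). It does not occur for Abhyankar valuations, but it occurs for deficiency one, and here it
can be arbitrary.

The proof for Abhyankar valuations does not use the stability theorem:
`Pool.Agent.H893.AB.P_stab` shows that they have no defect by counting values. The proof for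
deficiency one and two is by monomialization: `Pool.Agent.H893.DD` treats the fields
`k(X₁, ..., Xᵣ, y)`, and `Pool.Agent.H893.TW.Main` the fields `k(X₁, ..., Xᵣ, y, z)`, where the
values of the `Xᵢ` are independent, by key polynomials whose degrees are powers of `p`, by descent
along Artin-Schreier and Kummer extensions, and by an invariant which drops under Perron transforms.
-/

set_option autoImplicit false

universe u

namespace Pool.Agent.Results.MP_19ffc6_ag.CompositesAndTowersWithDefect

open IsLocalRing Pool.Agent.W418.LU2 Pool.Agent.TH188.QS Pool.Agent.H893.EC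
open scoped NNReal

/-- The local ring of `Spec B` at the centre of the valuation ring `V`: the fractions of elements
of `B` whose denominators are units of `V`. -/
def centreRing {F : Type u} [Field F] (V : ValuationSubring F) (B : Subring F) : Subring F where
  carrier := {x | ∃ a ∈ B, ∃ b ∈ B, b ≠ 0 ∧ b⁻¹ ∈ V ∧ x = a * b⁻¹}
  mul_mem' := (lo V.toSubring B).mul_mem'
  one_mem' := (lo V.toSubring B).one_mem'
  add_mem' := (lo V.toSubring B).add_mem'
  zero_mem' := (lo V.toSubring B).zero_mem'
  neg_mem' := (lo V.toSubring B).neg_mem'

/-- The chart `A[I / f]` of the blowing-up of `Spec A` in the ideal `I`. -/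
def blowUpChart {F : Type u} [Field F] (A : Subring F) (I : Ideal A) (f : A) : Subring F :=
  Subring.closure ((A : Set F) ∪ {z | ∃ a ∈ I, z = (a : F) / (f : F)})

/-- `P` is a regular local ring and the zero set of `J` is a divisor with strict normal
crossings: the radical of `J` is generated by the product of some of the elements of a regular
system of parameters. -/
def RegularPair (P : Type u) [CommRing P] (J : Ideal P) : Prop :=
  ∃ (_ : IsRegularLocalRing P) (n : ℕ) (x : Fin n → P) (s : Finset (Fin n)),
    Ideal.span (Set.range x) = IsLocalRing.maximalIdeal P ∧ ringKrullDim P = n ∧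
      J.radical = Ideal.span {∏ i ∈ s, x i}

/-- The blowing-up of `X = Spec A` in `V(I)` is a log desingularization of `(X, V(D))` along the
valuation ring `V`. Here `f ∈ I` generates `I V`, the centre of the lift of the valuation lies in
the chart `Spec A[I / f]`, and the ideal `D I` defines the preimage of `V(D) ∪ V(I)`. -/
def IsLogDesingularization {F : Type u} [Field F] (V : ValuationSubring F) (A : Subring F)
    (D I : Ideal A) : Prop :=
  ∃ f ∈ I, f ≠ 0 ∧ (∀ a ∈ I, (a : F) / (f : F) ∈ V) ∧
    RegularPair (centreRing V (blowUpChart A I f))
      (Ideal.span {z | ∃ a ∈ D * I, (z : F) = (a : F)})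

/-- The valuation ring `V` is log uniformizable on `Spec A`. (The blowings-up in the ideals
`I₀ * I₁` are cofinal: the blowing-up in `I₀ * I₁` factors through the blowing-up in `I₀`.) -/
def IsLogUniformizable {F : Type u} [Field F] (V : ValuationSubring F) (A : Subring F) : Prop :=
  ∀ D I₀ : Ideal A, D ≠ ⊥ → I₀ ≠ ⊥ →
    ∃ I₁ : Ideal A, I₁ ≠ ⊥ ∧ IsLogDesingularization V A D (I₀ * I₁)

/-- The image of the `R`-algebra generated by `T`. -/
def adjoined {R K : Type u} [CommRing R] [Field K] (ρ : R →+* K) (T : Set K) : Subring K :=
  Subring.closure ((ρ.range : Set K) ∪ T)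

/-- Every element of the field `K` is a fraction of elements of `A`. -/
def HasFractionField {K : Type u} [Field K] (A : Subring K) : Prop :=
  ∀ z : K, ∃ a ∈ A, ∃ b ∈ A, b ≠ 0 ∧ z = a * b⁻¹

/-- The field `K` is finitely generated over `R`: it is the fraction field of an `R`-algebra of
finite type. -/
def IsFinitelyGenerated {R K : Type u} [CommRing R] [Field K] (ρ : R →+* K) : Prop :=
  ∃ T : Set K, T.Finite ∧ HasFractionField (adjoined ρ T)

/-- The quadratic transform of `Q` along `V`: the local ring, at the centre of `V`, of the
blowing-up of `Spec Q` in the centre of `V`. -/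
def quadraticTransform {K : Type u} [Field K] (V : ValuationSubring K) (Q : Subring K) :
    Subring K :=
  centreRing V (Subring.closure ((Q : Set K) ∪ {t | ∃ y ∈ Q, ∃ z ∈ Q,
    V.valuation y < 1 ∧ z ≠ 0 ∧ V.valuation z < 1 ∧
      (∀ w ∈ Q, V.valuation w < 1 → V.valuation w ≤ V.valuation z) ∧ t = y / z}))

/-- The sequence of quadratic transforms of the local ring of `Spec A` at the centre of `V`. -/
def quadraticSequence {K : Type u} [Field K] (V : ValuationSubring K) (A : Subring K) :
    ℕ → Subring K
  | 0 => centreRing V A
  | n + 1 => quadraticTransform V (quadraticSequence V A n)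

/-- The values of the maximal ideals in the sequence of quadratic transforms have an infinite sum:
every value of `V` is exceeded by the value of all products `z 0 * ... * z (n - 1)` of elements
`z i` of the maximal ideals of the rings of the sequence, for some `n`. -/
def IsDivergent {K : Type u} [Field K] (V : ValuationSubring K) (A : Subring K) : Prop :=
  ∀ x : K, x ≠ 0 → ∃ n : ℕ, ∀ z : ℕ → K,
    (∀ i < n, z i ∈ quadraticSequence V A i ∧ z i ≠ 0 ∧ V.valuation (z i) < 1) →
      V.valuation (∏ i ∈ Finset.range n, z i) < V.valuation x

/-- The value group of `v` has the rational rank `r`: there are `r` nonzero elements of `K` with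
independent values, and every value has a power which is a product of powers of their values. -/
def HasRationalRank {K : Type u} [Field K] (v : Valuation K ℝ≥0) (r : ℕ) : Prop :=
  ∃ x : Fin r → K, (∀ i, x i ≠ 0) ∧ (∀ m : Fin r → ℤ, ∏ i, v (x i) ^ m i = 1 → m = 0) ∧
    ∀ z : K, z ≠ 0 → ∃ n : ℕ, n ≠ 0 ∧ ∃ m : Fin r → ℤ, v z ^ n = ∏ i, v (x i) ^ m i

/-- The homomorphism from the ground field `k` to the residue field of a valuation `v` of the
extension `ρ : k → K` which is trivial on `k`. -/
noncomputable def residueMap {k K : Type u} [Field k] [Field K] (ρ : k →+* K)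
    (v : Valuation K ℝ≥0) (hk : ∀ c : k, c ≠ 0 → v (ρ c) = 1) :
    k →+* ResidueField v.valuationSubring :=
  (residue v.valuationSubring).comp
    (ρ.codRestrict v.valuationSubring.toSubring
      (@Pool.Agent.H893.DD.kV_mem k K _ _ ρ.toAlgebra v hk))

/-- The residue field of `v` as an extension field of the ground field `k`. -/
noncomputable abbrev residueAlgebra {k K : Type u} [Field k] [Field K] (ρ : k →+* K)
    (v : Valuation K ℝ≥0) (hk : ∀ c : k, c ≠ 0 → v (ρ c) = 1) :
    Algebra k (ResidueField v.valuationSubring) :=
  (residueMap ρ v hk).toAlgebra

/-- The valuation ring `V` of the extension field `K` of `k` is nearly Abhyankar: `K` is finitely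
generated over `k`, and `V` is the valuation ring of a valuation `v` of rank one which is trivial on
`k`, has the rational rank `r ≥ 1`, and whose deficiency `tr.deg(K / k) - tr.deg(κ(v) / k) - r` is
zero (the case of equality in the Abhyankar inequality) or one. If it is one, the residue field
`κ(v)` is finitely generated over `k`, and infinite if `r = 1`. -/
def IsNearlyAbhyankar {k K : Type u} [Field k] [Field K] (ρ : k →+* K) (V : ValuationSubring K) :
    Prop :=
  letI := ρ.toAlgebra
  Algebra.EssFiniteType k K ∧
    ∃ (v : Valuation K ℝ≥0) (hk : ∀ c : k, c ≠ 0 → v (ρ c) = 1) (r : ℕ),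
      V = v.valuationSubring ∧ 1 ≤ r ∧ HasRationalRank v r ∧
        (letI := residueAlgebra ρ v hk
         Algebra.trdeg k K =
            Algebra.trdeg k (ResidueField v.valuationSubring) + (r : Cardinal) ∨
          (Algebra.trdeg k K =
              Algebra.trdeg k (ResidueField v.valuationSubring) + ((r + 1 : ℕ) : Cardinal) ∧
            Algebra.EssFiniteType k (ResidueField v.valuationSubring) ∧
            (r = 1 → Infinite (ResidueField v.valuationSubring))))

/-- The valuation ring `V` of the extension field `K` of `k` is ruled of deficiency two. Here
`K = E(t)` is finitely generated over `k`, `E ⊇ k` is a finitely generated subfield, and `V` is the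
valuation ring of a valuation `v` of rank one which is trivial on `k`, such that
`tr.deg(K / k) = r + s + 2` and `tr.deg(E / k) = r + s + 1`, where `s` is the transcendence degree
of the residue field `κ(v)` over `k` and `r ≥ 2` is the rational rank of `v` and of its restriction
to `E`: there are `x i ∈ E`, `i < r`, with independent values, and every value of `K` has a power
which is a product of powers of their values. Moreover, `κ(v)` is finitely generated over `k`, and
`E` contains lifts of the elements of a separating transcendence basis of `κ(v)` over `k`. -/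
def IsRuledOfDeficiencyTwo {k K : Type u} [Field k] [Field K] (ρ : k →+* K)
    (V : ValuationSubring K) : Prop :=
  letI := ρ.toAlgebra
  Algebra.EssFiniteType k K ∧
    ∃ (v : Valuation K ℝ≥0) (hk : ∀ c : k, c ≠ 0 → v (ρ c) = 1), V = v.valuationSubring ∧
      ∃ (E : IntermediateField k K) (t : K) (r : ℕ) (x : Fin r → E), Algebra.EssFiniteType k E ∧
        E ⊔ IntermediateField.adjoin k {t} = ⊤ ∧ 2 ≤ r ∧ (∀ i, x i ≠ 0) ∧
        (∀ m : Fin r → ℤ, ∏ i, v (x i : K) ^ m i = 1 → m = 0) ∧
        (∀ z : K, z ≠ 0 → ∃ n : ℕ, n ≠ 0 ∧ ∃ m : Fin r → ℤ, v z ^ n = ∏ i, v (x i : K) ^ m i) ∧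
        (letI := residueAlgebra ρ v hk
         Algebra.EssFiniteType k (ResidueField v.valuationSubring) ∧
          (∃ s : Finset (ResidueField v.valuationSubring),
            IsTranscendenceBasis k ((↑) : s → ResidueField v.valuationSubring) ∧
            Algebra.IsSeparable
              (IntermediateField.adjoin k (s : Set (ResidueField v.valuationSubring)))
              (ResidueField v.valuationSubring) ∧
            ∀ i ∈ s, ∃ y : v.valuationSubring, (y : K) ∈ E ∧ residue v.valuationSubring y = i) ∧
          Algebra.trdeg k E =
            Algebra.trdeg k (ResidueField v.valuationSubring) + ((r + 1 : ℕ) : Cardinal) ∧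
          Algebra.trdeg k K =
            Algebra.trdeg k (ResidueField v.valuationSubring) + ((r + 2 : ℕ) : Cardinal))

/-- `V` is the composite of the valuation ring `V₁` and the valuation ring `W` of its residue
field. -/
def IsComposite {K : Type u} [Field K] (V V₁ : ValuationSubring K)
    (W : ValuationSubring (ResidueField V₁)) : Prop :=
  ∀ z : K, z ∈ V ↔ ∃ hz : z ∈ V₁, residue V₁ ⟨z, hz⟩ ∈ W

section key

open Polynomial

variable {K : Type u} [Field K] (V : ValuationSubring K) {L : Subfield K} (θ : K)

/-- The monic polynomial `ϕ` over `L` of positive degree is a key polynomial for the valuation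
`f ↦ |f(θ)|` of polynomials: if `f` and `g` are nonzero polynomials of smaller degree and
`f g = q ϕ + r` with `deg r < deg ϕ`, then `|q(θ) ϕ(θ)| < |f(θ) g(θ)|`. -/
def IsKey (ϕ : L[X]) : Prop :=
  ϕ.Monic ∧ 0 < ϕ.natDegree ∧ ∀ f g : L[X], f.degree < ϕ.degree → g.degree < ϕ.degree →
    f ≠ 0 → g ≠ 0 → V.valuation (aeval θ (f * g /ₘ ϕ * ϕ)) < V.valuation (aeval θ (f * g))

/-- The polynomials of degree less than the degree of `ϕ` have an orthogonal basis over `L` with
respect to the valuation `f ↦ |f(θ)|`. -/
def IsDefectless (ϕ : L[X]) : Prop :=
  ∃ (n : ℕ) (β : Fin n → L[X]), (∀ i, (β i).degree < ϕ.degree ∧ β i ≠ 0) ∧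
    (∀ f : L[X], f.degree < ϕ.degree → ∃ c : Fin n → L, f = ∑ i, C (c i) * β i) ∧
    ∀ (c : Fin n → L) (i : Fin n), V.valuation (aeval θ (C (c i) * β i)) ≤
      V.valuation (aeval θ (∑ j, C (c j) * β j))

/-- The value of `f(θ)` is determined by `ϕ`: in the `ϕ`-adic expansion `f = ∑ f_k ϕ ^ k` with
`deg f_k < deg ϕ` the value of no term at `θ` is greater than the value of `f(θ)`. -/
def IsDetermined (ϕ f : L[X]) : Prop :=
  ∃ (N : ℕ) (d : ℕ → L[X]), (∀ k, (d k).degree < ϕ.degree) ∧
    f = ∑ k ∈ Finset.range N, d k * ϕ ^ k ∧
    ∀ k < N, V.valuation (aeval θ (d k * ϕ ^ k)) ≤ V.valuation (aeval θ f)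

end key

open Polynomial in
/-- The extension `L ⊆ L'` of subfields of `K` is finite and has no defect with respect to the
valuation ring `V` of `K`: for some valuation ring `W` over `V` of some extension field `M` of `K`
(for example the henselization), some root `ζ ∈ M` of a monic polynomial `f` over `V ∩ L` with
`|f'(ζ)| = 1`, and some nonzero elements `β i` of `L'`, the field `L'` is contained in the sum of
the lines `L(ζ) β i`, and the `β i` are orthogonal over `L(ζ) = L[ζ]`. -/
def IsFiniteWithoutDefect {K : Type u} [Field K] (V : ValuationSubring K) (L L' : Subfield K) :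
    Prop :=
  L ≤ L' ∧ ∃ (M : Type u) (_ : Field M) (_ : Algebra K M) (W : ValuationSubring M) (ζ : M)
    (f : L[X]) (n : ℕ) (β : Fin n → K), W.comap (algebraMap K M) = V ∧ f.Monic ∧
    (∀ i, (f.coeff i : K) ∈ V) ∧ eval₂ ((algebraMap K M).comp L.subtype) ζ f = 0 ∧
    W.valuation (eval₂ ((algebraMap K M).comp L.subtype) ζ (derivative f)) = 1 ∧
    (∀ i, β i ∈ L' ∧ β i ≠ 0) ∧
    (∀ z ∈ L', ∃ c : Fin n → L[X], algebraMap K M z =
      ∑ i, eval₂ ((algebraMap K M).comp L.subtype) ζ (c i) * algebraMap K M (β i)) ∧
    ∀ (c : Fin n → L[X]) (i : Fin n),
      W.valuation (eval₂ ((algebraMap K M).comp L.subtype) ζ (c i) * algebraMap K M (β i)) ≤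
        W.valuation (∑ j, eval₂ ((algebraMap K M).comp L.subtype) ζ (c j) * algebraMap K M (β j))

open Polynomial in
/-- The subfields `L` of `K` which are reached from the field `E` by a tower of steps without
defect with respect to the valuation ring `V` of `K`. -/
inductive Tower (E : Type u) {K : Type u} [Field E] [Field K] [Algebra E K]
    (V : ValuationSubring K) : Subfield K → Prop
  /-- The tower starts with (the image of) `E`. -/
  | base : Tower E V (algebraMap E K).fieldRange
  /-- The step from `L` to `L(t)`, where `t` is transcendental and the value of every polynomial in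
  `t` is determined by a defectless key polynomial. -/
  | transcendental (L : Subfield K) (t : K) : Tower E V L → Transcendental L t →
    (∀ f : L[X], ∃ ϕ : L[X], IsKey V t ϕ ∧ IsDefectless V t ϕ ∧ IsDetermined V t ϕ f) →
    Tower E V (L ⊔ Subfield.closure {t})
  /-- The step from `L` to a finite extension `L'` without defect. -/
  | finite (L L' : Subfield K) : Tower E V L → IsFiniteWithoutDefect V L L' → Tower E V L'

/-- The valuation ring `V` of the field `L` has rank one: it is a maximal proper subring which is a
valuation ring. -/
def IsRankOne {L : Type u} [Field L] (V : ValuationSubring L) : Prop :=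
  V ≠ ⊤ ∧ ∀ U : ValuationSubring L, V < U → U = ⊤

open Polynomial in
/-- The extension `L = F(ζ)` of `F` lies in the henselization of `F` with respect to `V ∩ F`: the
minimal polynomial `h` of `ζ` over `F` has coefficients in `V`, its derivative satisfies
`|h'(ζ)| = 1`, and `|ζ - a| < 1` for some `a ∈ F`. -/
def IsInHenselization (F : Type u) {L : Type u} [Field F] [Field L] [Algebra F L]
    (V : ValuationSubring L) : Prop :=
  ∃ (ζ : L) (a : F), (∀ z : L, ∃ f : F[X], aeval ζ f = z) ∧
    (∀ i, algebraMap F L ((minpoly F ζ).coeff i) ∈ V) ∧
    V.valuation (aeval ζ (derivative (minpoly F ζ))) = 1 ∧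
    V.valuation (ζ - algebraMap F L a) < 1

/-- The smallest class of valuation rings of extension fields of `k` which contains the discrete and
divergent ones, the known ones, the nearly Abhyankar ones and the ruled ones of deficiency two, and
which is closed under composition, towers without defect and henselian descent. -/
inductive Admissible (k : Type u) [Field k] :
    ∀ {K : Type u} [Field K], (k →+* K) → ValuationSubring K → Prop
  /-- The trivial valuation rings. -/
  | trivial {K : Type u} [Field K] (ρ : k →+* K) : Admissible k ρ (⊤ : ValuationSubring K)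
  /-- The discrete valuation rings of rank one, and the valuation rings with divergent sequences of
  quadratic transforms of all `k`-algebras of finite type. -/
  | divergent {K : Type u} [Field K] (ρ : k →+* K) (V : ValuationSubring K) :
    (IsDiscreteValuationRing V ∨ ∀ T : Set K, T.Finite → adjoined ρ T ≤ V.toSubring →
      IsDivergent V (adjoined ρ T)) → Admissible k ρ V
  /-- The valuation rings of a finitely generated field which are log uniformizable on the spectra
  of all `k`-algebras of finite type with this fraction field. -/
  | known {K : Type u} [Field K] (ρ : k →+* K) (V : ValuationSubring K) : IsFinitelyGenerated ρ →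
    (∀ T : Set K, T.Finite → adjoined ρ T ≤ V.toSubring → HasFractionField (adjoined ρ T) →
      IsLogUniformizable V (adjoined ρ T)) → Admissible k ρ V
  /-- The nearly Abhyankar valuation rings. -/
  | nearlyAbhyankar {K : Type u} [Field K] (ρ : k →+* K) (V : ValuationSubring K) :
    IsNearlyAbhyankar ρ V → Admissible k ρ V
  /-- The ruled valuation rings of deficiency two. -/
  | ruled {K : Type u} [Field K] (ρ : k →+* K) (V : ValuationSubring K) :
    IsRuledOfDeficiencyTwo ρ V → Admissible k ρ V
  /-- The composites of a valuation ring `V₁` and a valuation ring `W` of its residue field. -/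
  | composite {K : Type u} [Field K] (ρ : k →+* K) (V V₁ : ValuationSubring K)
    (W : ValuationSubring (ResidueField V₁)) (hρ : ∀ a, ρ a ∈ V₁.toSubring) :
    IsComposite V V₁ W → Admissible k ρ V₁ →
    Admissible k ((residue V₁).comp (ρ.codRestrict V₁.toSubring hρ)) W → Admissible k ρ V
  /-- The valuation rings of a field `K` which is reached by a tower without defect from a finitely
  generated field `E` whose valuation ring is in the class. -/
  | tower {E K : Type u} [Field E] [Field K] [Algebra E K] (ρ : k →+* E)
    (V : ValuationSubring K) : (∀ a, algebraMap E K (ρ a) ∈ V) → IsFinitelyGenerated ρ →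
    Admissible k ρ (V.comap (algebraMap E K)) → Tower E V ⊤ →
    Admissible k ((algebraMap E K).comp ρ) V
  /-- Henselian descent: the valuation rings `V ∩ F` of a finitely generated field `F`, where `V` is
  a valuation ring of rank one in the class of a finite extension of `F` in the henselization. -/
  | descent {F L : Type u} [Field F] [Field L] [Algebra F L] (ρ : k →+* F)
    (V : ValuationSubring L) : (∀ a, algebraMap F L (ρ a) ∈ V) → IsFinitelyGenerated ρ →
    IsRankOne V → IsInHenselization F V → Admissible k ((algebraMap F L).comp ρ) V →
    Admissible k ρ (V.comap (algebraMap F L))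

lemma quadraticSequence_eq {K : Type u} [Field K] (V : ValuationSubring K) (A : Subring K) :
    quadraticSequence V A = qseq V A := by
  funext n
  induction n with
  | zero => rfl
  | succ n ih =>
    change quadraticTransform V (quadraticSequence V A n) = qt V.toSubring (qseq V A n)
    rw [ih, qt_val]
    rfl

lemma IsDivergent.dv {K : Type u} [Field K] {V : ValuationSubring K} {A : Subring K}
    (h : IsDivergent V A) : Dv V (qseq V A) := by
  rw [← quadraticSequence_eq]
  exact dv_of_lt h

/-- The steps of a tower. -/
lemma Tower.inv {E K : Type u} [Field E] [Field K] [Algebra E K] {V : ValuationSubring K}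
    {R' : Subring K} (h0 : Pool.Agent.H176.DT.Inv V R' (algebraMap E K).fieldRange.subtype)
    {L : Subfield K} (hL : Tower E V L) : Pool.Agent.H176.DT.Inv V R' L.subtype := by
  have kp : ∀ {L : Subfield K} {θ : K} {ϕ : Polynomial L}, IsKey V θ ϕ → IsDefectless V θ ϕ →
      ∃ (n : ℕ) (β : Fin n → Polynomial L), Pool.Agent.H176.DT.KP V θ ϕ β := by
    rintro L θ ϕ ⟨h1, h2, h3⟩ ⟨n, β, h4, h5, h6⟩
    exact ⟨n, β, h1, h2, fun i => (h4 i).1, fun i => (h4 i).2, h5, h6, h3⟩
  induction hL with
  | base => exact h0
  | transcendental L t _ ht hdom ih =>
    refine Pool.Agent.H176.DT.sub_trans V _ t ht (fun f => ?_) ih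
    obtain ⟨ϕ, h1, h2, N, d, h3, h4, h5⟩ := hdom f
    obtain ⟨n, β, h6⟩ := kp h1 h2
    exact ⟨ϕ, n, β, h6, N, d, ⟨h3, h4⟩, h5⟩
  | finite L L' _ hnd ih => exact Pool.Agent.H176.DT.sub_nd V _ hnd.1 hnd.2 ih

lemma essFinite_of {k F : Type u} [Field k] [Field F] {ρ : k →+* F}
    (h : IsFinitelyGenerated ρ) : letI := ρ.toAlgebra; Algebra.EssFiniteType k F := by
  let _ := ρ.toAlgebra
  obtain ⟨S, hS, hSF⟩ := h
  refine (Algebra.essFiniteType_iff (R := k) (S := F)).2 ⟨hS.toFinset, fun z => ?_⟩
  have hle : ∀ x ∈ adjoined ρ S, x ∈ Algebra.adjoin k ((hS.toFinset : Finset F) : Set F) := by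
    intro x hx
    have h1 : adjoined ρ S ≤ (Algebra.adjoin k ((hS.toFinset : Finset F) : Set F)).toSubring := by
      unfold adjoined
      rw [Subring.closure_le]
      rintro z (⟨c, rfl⟩ | hz)
      · exact Subalgebra.algebraMap_mem _ c
      · exact Algebra.subset_adjoin (by simpa using hz)
    exact h1 hx
  obtain ⟨a, ha, b, hb, hb0, rfl⟩ := hSF z
  exact ⟨b, hle b hb, isUnit_iff_ne_zero.2 hb0, by
    rw [inv_mul_cancel_right₀ hb0]
    exact hle a ha⟩

lemma Admissible.good {k : Type u} [Field k] (p : ℕ) [Fact p.Prime] [CharP k p] [PerfectField k]
    {K : Type u} [Field K] {ρ : k →+* K} {V : ValuationSubring K} (h : Admissible k ρ V) :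
    Pool.Agent.R187.CT.Good ρ V := by
  induction h with
  | trivial ρ => exact Pool.Agent.R187.CT.good_top ρ
  | divergent ρ V h =>
    exact Pool.Agent.R187.CT.good_dv (hjF k) ρ V (h.imp_right fun h T hT hTV => (h T hT hTV).dv)
  | known ρ V hK h => exact Pool.Agent.R187.CT.good_given (hjF k) ρ V hK h
  | composite ρ V V₁ W hρ hc _ _ ih₁ ihW =>
    exact Pool.Agent.R187.CT.good_comp (hjF k) ρ hρ hc ih₁ ihW
  | tower ρ V hρ hE _ ht ih =>
    exact Pool.Agent.R187.CT.good_tower (hjF k) ρ V hρ hE ih fun R' h0 => ht.inv h0
  | @descent F L _ _ _ ρ V hρ hF hr1 hhens _ ih =>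
    obtain ⟨ζ, a, hgen, hcoef, hder, hres⟩ := hhens
    have hint : IsIntegral F ζ := by
      by_contra h1
      rw [minpoly.eq_zero h1, Polynomial.derivative_zero, map_zero, map_zero] at hder
      exact zero_ne_one hder
    have halg : Algebra.IsAlgebraic F L := ⟨fun z => by
      obtain ⟨f, rfl⟩ := hgen z
      rw [Polynomial.aeval_eq_sum_range]
      refine (IsIntegral.sum _ fun i _ => ?_).isAlgebraic
      exact (hint.pow i).smul _⟩
    let _ := ρ.toAlgebra
    have hess : Algebra.EssFiniteType k F := essFinite_of hF
    exact good_desc (hjF k) ρ V hρ hF ζ hgen hcoef hder a hres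
      (Pool.Agent.H893.DD.t_arch V hr1.2) (Pool.Agent.H893.DD.t_nt V hr1.1)
      (@Pool.Agent.H893.DD.t_frr k F L _ _ _ _ _ hess halg V hρ) ih
  | @nearlyAbhyankar K _ ρ V h =>
    let _ := ρ.toAlgebra
    obtain ⟨hess, v, hk, r, rfl, hr, ⟨x, hx0, hind, hrr⟩, h⟩ := h
    have hess' : Algebra.EssFiniteType k K := hess
    exact @Pool.Agent.H893.AB.good_perf2 k K _ p _ _ _ _ _ hess' v hk r hr h x hx0 hind hrr
  | @ruled K _ ρ V h =>
    let _ := ρ.toAlgebra
    obtain ⟨hess, v, hk, rfl, h⟩ := h
    have hess' : Algebra.EssFiniteType k K := hess
    exact @Pool.Agent.H893.TW.good_rul k K _ p _ _ _ _ hess' v hk h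

/-- Let `k` be a perfect field of characteristic `p > 0`, let `K` be an extension field of `k`
and let `A` be a finitely generated `k`-algebra with the fraction field `K`. Let `V ⊇ A` be a
valuation ring of `K` in the class `Admissible k` generated by the discrete, divergent, known and
nearly Abhyankar valuation rings and the ruled ones of deficiency two under composition, towers
without defect and henselian descent. (It contains every valuation ring `V` of finite rank such that
the valuations of rank one of which `V` is composed are as in `IsNearlyAbhyankar` or as in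
`IsRuledOfDeficiencyTwo`.) Then `V` is log uniformizable on `X = Spec A`: for every closed subset
`V(D) ≠ X` and for every blowing-up `X₀` of `X` there is a blowing-up of `X` which factors through
`X₀` and which is a log desingularization of `(X, V(D))` along `V`. -/
theorem result {k : Type u} [Field k] (p : ℕ) [Fact p.Prime] [CharP k p] [PerfectField k]
    {K : Type u} [Field K] (ρ : k →+* K) (V : ValuationSubring K) (hV : Admissible k ρ V)
    (G : Set K) (hG : G.Finite) (A : Subring K) (hA : A = Subring.closure (Set.range ρ ∪ G))
    (hAV : A ≤ V.toSubring) (hAK : ∀ z : K, ∃ a ∈ A, ∃ b ∈ A, b ≠ 0 ∧ z = a * b⁻¹) :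
    IsLogUniformizable V A := by
  have hA' : A = Pool.Agent.R187.CT.rg ρ G := hA.trans (range_union ρ G).symm
  exact (hV.good p).logUnif (hjF k) hG hAV (le_of_eq hA'.symm) (fun b hb => ⟨b, hA' ▸ hb, 1,
    Subring.one_mem _, one_ne_zero, by rw [inv_one]; exact Subring.one_mem _, by
      rw [inv_one, mul_one]⟩) hAK

end Pool.Agent.Results.MP_19ffc6_ag.CompositesAndTowersWithDefect
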