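import Pool.Agent.H863.ML.Special
import Pool.Agent.H863.ML.Assem
import Pool.Graph.R_seed8.H920R2.Trans

/-!
MP_19ffc6_ag: the multiplicity loci, that is the closures of the sets of tuples of polynomials of
the form `s i * ∏ j, F j ^ e j i`, have resolutions of singularities over every infinite field, in
every characteristic and every dimension.
-/

set_option autoImplicit false

open AlgebraicGeometry CategoryTheory Pool.Agent.H920R2 Pool.Agent.H863.ML

universe u

namespace Pool.Agent.Results.MP_19ffc6_ag.MultiplicityLoci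

section defs

variable (k : Type u) [Field k] {J I : Type} [Fintype J] (n : ℕ) (d : J → ℕ) (e : J → I → ℕ)

/-- The indices of the coefficients of a tuple of polynomials in `n + 1` variables, where the
polynomial number `i` has degree at most `∑ j, e j i * d j`. -/
abbrev Coord : Type := Σ i : I, {μ : Fin (n + 1) →₀ ℕ // μ.degree ≤ ∑ j, e j i * d j}

/-- The coefficients of the polynomials `s i * ∏ j, F j ^ e j i`. -/
noncomputable def coeffs (s : I → k) (F : J → MvPolynomial (Fin (n + 1)) k) :
    Coord n d e → k :=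
  fun x => (MvPolynomial.C (s x.1) * ∏ j, F j ^ e j x.1).coeff x.2.1

/-- The tuples of polynomials `s i * ∏ j, F j ^ e j i`, where the `s i` are scalars and `F j` is a
polynomial in `n + 1` variables of degree at most `d j`. -/
def locus : Set (Coord n d e → k) :=
  {t | ∃ (s : I → k) (F : J → MvPolynomial (Fin (n + 1)) k),
    (∀ j, (F j).totalDegree ≤ d j) ∧ t = coeffs k n d e s F}

/-- The coordinate ring of the Zariski closure of the set of these tuples. -/
abbrev CoordRing : Type u :=
  MvPolynomial (Coord n d e) k ⧸ MvPolynomial.vanishingIdeal k (locus k n d e)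

/-- The Zariski closure of the set of these tuples. -/
noncomputable def mulVar : Scheme.{u} := Spec (CommRingCat.of (CoordRing k n d e))

/-- The structure morphism. -/
noncomputable def mulStr : mulVar k n d e ⟶ Spec (CommRingCat.of k) :=
  Spec.map (CommRingCat.ofHom (algebraMap k (CoordRing k n d e)))

end defs

section param

variable (k : Type u) [Field k] {J I : Type} [Fintype J] (n : ℕ) (d : J → ℕ) (e : J → I → ℕ)

/-- The exponents of bounded degree form a finite type. -/
noncomputable instance fintypeMo' (n d : ℕ) : Fintype (Mo' n d) := Fintype.ofFinite _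

/-- The coefficients of the generic tuple, with normalized and twisted factors. -/
noncomputable def affP (q : J → ℕ) (a : J → I → ℕ) (x : Coord n d e) :
    MvPolynomial (I ⊕ Vr n d) k :=
  ((MvPolynomial.C (MvPolynomial.X (Sum.inl x.1)) :
    MvPolynomial (Fin (n + 1)) (MvPolynomial (I ⊕ Vr n d) k)) *
    PP q a (fun s : Vr n d => (MvPolynomial.X (Sum.inr s) : MvPolynomial (I ⊕ Vr n d) k))
      x.1).coeff x.2.1

/-- The generic factor. -/
noncomputable def HG (j : J) :
    MvPolynomial (Fin (n + 1)) (MvPolynomial (I ⊕ Σ j, Mo' n (d j)) k) :=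
  ∑ ν : Mo' n (d j), MvPolynomial.monomial ν.1 (MvPolynomial.X (Sum.inr ⟨j, ν⟩))

/-- The coefficients of the generic tuple. -/
noncomputable def homP (x : Coord n d e) : MvPolynomial (I ⊕ Σ j, Mo' n (d j)) k :=
  (MvPolynomial.C (MvPolynomial.X (Sum.inl x.1)) * ∏ j, HG k n d j ^ e j x.1).coeff x.2.1

variable {k n d e}

lemma eval_affP (q : J → ℕ) (a : J → I → ℕ) (w : I ⊕ Vr n d → k) (x : Coord n d e) :
    MvPolynomial.eval w (affP k n d e q a x) =
      (MvPolynomial.C (w (Sum.inl x.1)) * PP q a (fun s => w (Sum.inr s)) x.1).coeff x.2.1 := by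
  have h1 : (fun s => MvPolynomial.eval w (MvPolynomial.X (Sum.inr s))) =
      fun s : Vr n d => w (Sum.inr s) := by
    funext s
    exact MvPolynomial.eval_X _
  rw [affP, ← MvPolynomial.coeff_map, map_mul, MvPolynomial.map_C, MvPolynomial.eval_X, map_PP, h1]

lemma eval_homP (w : (I ⊕ Σ j, Mo' n (d j)) → k) (s : I → k)
    (F : J → MvPolynomial (Fin (n + 1)) k) (hF : ∀ j, (F j).totalDegree ≤ d j)
    (hs : ∀ i, w (Sum.inl i) = s i) (hw : ∀ j ν, w (Sum.inr ⟨j, ν⟩) = (F j).coeff ν.1)
    (x : Coord n d e) : MvPolynomial.eval w (homP k n d e x) = coeffs k n d e s F x := by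
  classical
  have h1 : ∀ j, MvPolynomial.map (MvPolynomial.eval w) (HG k n d j) = F j := by
    intro j
    rw [HG, map_sum]
    simp only [MvPolynomial.map_monomial, MvPolynomial.eval_X, hw]
    ext β
    rw [MvPolynomial.coeff_sum]
    by_cases hb : β.degree ≤ d j
    · rw [Finset.sum_eq_single (⟨β, hb⟩ : Mo' n (d j))]
      · rw [MvPolynomial.coeff_monomial, if_pos rfl]
      · intro ν _ hν
        rw [MvPolynomial.coeff_monomial, if_neg (fun h => hν (Subtype.ext h))]
      · intro h
        exact absurd (Finset.mem_univ _) h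
    · rw [coeff_eq_zero_of_lt (hF j) β (by omega)]
      refine Finset.sum_eq_zero fun ν _ => ?_
      rw [MvPolynomial.coeff_monomial, if_neg]
      rintro rfl
      exact hb ν.2
  rw [homP, ← MvPolynomial.coeff_map, map_mul, MvPolynomial.map_C, MvPolynomial.eval_X, map_prod,
    hs, coeffs]
  simp only [map_pow, h1]

lemma eval_aeval {σ σ' : Type} (w : σ → k) (P : σ' → MvPolynomial σ k)
    (p : MvPolynomial σ' k) : MvPolynomial.eval w (MvPolynomial.aeval P p) =
      MvPolynomial.eval (fun j => MvPolynomial.eval w (P j)) p := by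
  induction p using MvPolynomial.induction_on with
  | C r => rw [MvPolynomial.aeval_C, MvPolynomial.algebraMap_eq, MvPolynomial.eval_C,
      MvPolynomial.eval_C]
  | add p q hp hq => rw [map_add, map_add, map_add, hp, hq]
  | mul_X p i hp => rw [map_mul, map_mul, map_mul, hp, MvPolynomial.aeval_X, MvPolynomial.eval_X]

/-- The products of twisted factors. -/
lemma PP_frob (p : ℕ) [ExpChar k p] (v : J → ℕ) (a : J → I → ℕ)
    (he : ∀ j i, e j i = p ^ v j * a j i) (F : J → MvPolynomial (Fin (n + 1)) k)
    (hF0 : ∀ j, (F j).coeff 0 = 1) (hF : ∀ j, (F j).totalDegree ≤ d j) (i : I) :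
    PP (fun j => p ^ v j) a (fun s : Vr n d => (F s.1).coeff s.2.1 ^ p ^ v s.1) i =
      ∏ j, F j ^ e j i := by
  rw [PP]
  refine Finset.prod_congr rfl fun j _ => ?_
  have h1 : GG (fun s : Vr n d => (F s.1).coeff s.2.1 ^ p ^ v s.1) j =
      MvPolynomial.map (iterateFrobenius k p (v j)) (F j) := by
    have h2 := eq_Gp (hF0 j) (hF j)
    conv_rhs => rw [h2]
    rw [map_Gp]
    rfl
  rw [h1, he, pow_mul, ← expand_map_frob p (v j) (F j)]

/-- Polynomials which vanish on the generic tuple vanish on all tuples. -/
theorem van_iff [Infinite k] (p : ℕ) [ExpChar k p] (v : J → ℕ) (a : J → I → ℕ)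
    (he : ∀ j i, e j i = p ^ v j * a j i) (P : MvPolynomial (Coord n d e) k) :
    MvPolynomial.aeval (affP k n d e (fun j => p ^ v j) a) P = 0 ↔
      P ∈ MvPolynomial.vanishingIdeal k (locus k n d e) := by
  classical
  constructor
  · intro hP
    have haff : ∀ (s : I → k) (F : J → MvPolynomial (Fin (n + 1)) k),
        (∀ j, (F j).totalDegree ≤ d j) → (∀ j, (F j).coeff 0 ≠ 0) →
        MvPolynomial.eval (coeffs k n d e s F) P = 0 := by
      intro s F hF hF0
      let F' : J → MvPolynomial (Fin (n + 1)) k := fun j => MvPolynomial.C ((F j).coeff 0)⁻¹ * F j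
      let s' : I → k := fun i => s i * ∏ j, (F j).coeff 0 ^ e j i
      have hF'0 : ∀ j, (F' j).coeff 0 = 1 := by
        intro j
        change (MvPolynomial.C _ * F j).coeff 0 = 1
        rw [MvPolynomial.coeff_C_mul, inv_mul_cancel₀ (hF0 j)]
      have hF' : ∀ j, (F' j).totalDegree ≤ d j := by
        intro j
        refine totalDegree_le_of fun β hβ => ?_
        change (MvPolynomial.C _ * F j).coeff β = 0
        rw [MvPolynomial.coeff_C_mul, coeff_eq_zero_of_lt (hF j) β hβ, mul_zero]
      let w : I ⊕ Vr n d → k := fun x => match x with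
        | Sum.inl i => s' i
        | Sum.inr t => (F' t.1).coeff t.2.1 ^ p ^ v t.1
      have h1 := eval_aeval w (affP k n d e (fun j => p ^ v j) a) P
      rw [hP, map_zero] at h1
      rw [h1]
      refine congrArg (fun t => MvPolynomial.eval t P) ?_
      funext x
      rw [eval_affP, coeffs]
      change _ = (MvPolynomial.C (s' x.1) *
        PP (fun j => p ^ v j) a (fun t : Vr n d => (F' t.1).coeff t.2.1 ^ p ^ v t.1) x.1).coeff x.2.1
      rw [PP_frob p v a he F' hF'0 hF']
      congr 1
      change _ = MvPolynomial.C (s x.1 * ∏ j, (F j).coeff 0 ^ e j x.1) *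
        ∏ j, (MvPolynomial.C ((F j).coeff 0)⁻¹ * F j) ^ e j x.1
      rw [MvPolynomial.C_mul, map_prod, mul_assoc, ← Finset.prod_mul_distrib]
      congr 1
      refine Finset.prod_congr rfl fun j _ => ?_
      rw [MvPolynomial.C_pow, ← mul_pow, ← mul_assoc, ← MvPolynomial.C_mul,
        mul_inv_cancel₀ (hF0 j), MvPolynomial.C_1, one_mul]
    let z : ∀ j, Mo' n (d j) := fun j => ⟨0, by simp⟩
    have hQ : MvPolynomial.aeval (homP k n d e) P *
        ∏ j : J, MvPolynomial.X (Sum.inr ⟨j, z j⟩) = 0 := by
      apply MvPolynomial.funext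
      intro w
      rw [map_zero, map_mul, map_prod]
      simp only [MvPolynomial.eval_X]
      by_cases hw : ∀ j, w (Sum.inr ⟨j, z j⟩) ≠ 0
      · let F : J → MvPolynomial (Fin (n + 1)) k := fun j =>
          ∑ ν : Mo' n (d j), MvPolynomial.monomial ν.1 (w (Sum.inr ⟨j, ν⟩))
        have hFc : ∀ j (ν : Mo' n (d j)), (F j).coeff ν.1 = w (Sum.inr ⟨j, ν⟩) := by
          intro j ν
          change (∑ ν : Mo' n (d j), MvPolynomial.monomial ν.1 (w (Sum.inr ⟨j, ν⟩))).coeff ν.1 = _
          rw [MvPolynomial.coeff_sum, Finset.sum_eq_single ν]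
          · rw [MvPolynomial.coeff_monomial, if_pos rfl]
          · intro μ _ hμ
            rw [MvPolynomial.coeff_monomial, if_neg (fun h => hμ (Subtype.ext h))]
          · intro h
            exact absurd (Finset.mem_univ _) h
        have hFd : ∀ j, (F j).totalDegree ≤ d j := by
          intro j
          refine totalDegree_le_of fun β hβ => ?_
          change (∑ ν : Mo' n (d j), MvPolynomial.monomial ν.1 (w (Sum.inr ⟨j, ν⟩))).coeff β = 0
          rw [MvPolynomial.coeff_sum]
          refine Finset.sum_eq_zero fun ν _ => ?_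
          rw [MvPolynomial.coeff_monomial, if_neg]
          rintro rfl
          have := ν.2
          omega
        rw [eval_aeval]
        have h2 : (fun x => MvPolynomial.eval w (homP k n d e x)) =
            coeffs k n d e (fun i => w (Sum.inl i)) F := by
          funext x
          exact eval_homP w _ F hFd (fun _ => rfl) (fun j ν => (hFc j ν).symm) x
        rw [h2, haff _ F hFd (fun j => by
          have h3 := hFc j (z j)
          change (F j).coeff 0 = _ at h3
          rw [h3]
          exact hw j), zero_mul]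
      · push Not at hw
        obtain ⟨j, hw⟩ := hw
        rw [Finset.prod_eq_zero (Finset.mem_univ j) hw, mul_zero]
    have hQ0 : MvPolynomial.aeval (homP k n d e) P = 0 := by
      refine (mul_eq_zero.1 hQ).resolve_right ?_
      exact Finset.prod_ne_zero_iff.2 fun j _ => MvPolynomial.X_ne_zero _
    rw [MvPolynomial.mem_vanishingIdeal_iff]
    rintro _ ⟨s, F, hF, rfl⟩
    let w : (I ⊕ Σ j, Mo' n (d j)) → k := fun x => match x with
      | Sum.inl i => s i
      | Sum.inr t => (F t.1).coeff t.2.1
    have h1 := eval_aeval w (homP k n d e) P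
    rw [hQ0, map_zero] at h1
    have h2 : (fun x => MvPolynomial.eval w (homP k n d e x)) = coeffs k n d e s F := by
      funext x
      exact eval_homP w s F hF (fun _ => rfl) (fun _ _ => rfl) x
    rw [h2] at h1
    exact h1.symm
  · intro hP
    rw [MvPolynomial.mem_vanishingIdeal_iff] at hP
    refine MvPolynomial.funext_set (fun x : I ⊕ Vr n d => match x with
      | Sum.inl _ => Set.univ
      | Sum.inr t => Set.range (iterateFrobenius k p (v t.1))) ?_ ?_
    · rintro (i | t)
      · exact Set.infinite_univ
      · exact Set.infinite_range_of_injective (iterateFrobenius k p (v t.1)).injective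
    · intro w hw
      rw [map_zero, eval_aeval]
      have h1 : ∀ t : Vr n d, ∃ c : k, iterateFrobenius k p (v t.1) c = w (Sum.inr t) :=
        fun t => hw (Sum.inr t) trivial
      choose c hc using h1
      let F : J → MvPolynomial (Fin (n + 1)) k := fun j => Gp (fun ν => c ⟨j, ν⟩)
      have h2 : (fun x => MvPolynomial.eval w (affP k n d e (fun j => p ^ v j) a x)) =
          coeffs k n d e (fun i => w (Sum.inl i)) F := by
        funext x
        rw [eval_affP, coeffs, ← PP_frob p v a he F (fun j => Gp_coeff_zero _)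
          (fun j => Gp_totalDegree _)]
        have h3 : (fun t : Vr n d => w (Sum.inr t)) =
            fun t : Vr n d => (F t.1).coeff t.2.1 ^ p ^ v t.1 := by
          funext t
          have h4 : (F t.1).coeff t.2.1 = c t := Gp_coeff _ _
          rw [h4, ← hc t, iterateFrobenius_def]
        rw [h3]
      rw [h2]
      exact hP _ ⟨_, F, fun j => Gp_totalDegree _, rfl⟩

/-- The p-part of the multiplicity vector. -/
lemma exists_va (k : Type*) [Field k] (p : ℕ) [ExpChar k p] {I : Type} [Fintype I] (e : I → ℕ)
    (he : e ≠ 0) : ∃ (v : ℕ) (a : I → ℕ), (∀ i, e i = p ^ v * a i) ∧ ∃ i, (a i : k) ≠ 0 := by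
  classical
  obtain ⟨i0, hi0⟩ := Function.ne_iff.1 he
  have hi0' : e i0 ≠ 0 := hi0
  rcases ‹ExpChar k p› with _ | hp
  · refine ⟨0, e, fun i => by simp, i0, ?_⟩
    exact Nat.cast_ne_zero.2 hi0'
  · have hg : Finset.univ.gcd e ≠ 0 := by
      intro h0
      exact hi0' (Finset.gcd_eq_zero_iff.1 h0 i0 (Finset.mem_univ i0))
    obtain ⟨v, m, hm, hvm⟩ := Nat.exists_eq_pow_mul_and_not_dvd hg p hp.ne_one
    have h1 : ∀ i, p ^ v ∣ e i := fun i =>
      ((hvm ▸ dvd_mul_right _ _ : p ^ v ∣ Finset.univ.gcd e)).trans
        (Finset.gcd_dvd (Finset.mem_univ i))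
    choose a ha using h1
    refine ⟨v, a, ha, ?_⟩
    by_contra hcon
    push Not at hcon
    have h2 : p ^ (v + 1) ∣ Finset.univ.gcd e := by
      refine Finset.dvd_gcd fun i _ => ?_
      rw [ha i, pow_succ]
      exact mul_dvd_mul_left _ ((CharP.cast_eq_zero_iff k p _).1 (hcon i))
    rw [hvm, pow_succ] at h2
    exact hm (Nat.dvd_of_mul_dvd_mul_left (pow_pos hp.pos v) h2)

end param

/-- Let `k` be an infinite field, of any characteristic. Consider the tuples of polynomials
`s i * ∏ j, F j ^ e j i`, where the `s i` are scalars and `F j` is a polynomial in `n + 1`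
variables of degree at most `d j`. Assume that the multiplicity vectors `e j` are not zero and that
for different `j` they are different or, if there are at least two variables, the degrees `d j` are
different. Then the Zariski closure of the set of these tuples is a variety and has a resolution
of singularities. -/
theorem result (k : Type u) [Field k] [Infinite k] {J I : Type} [Fintype J] [Fintype I]
    (n : ℕ) (d : J → ℕ) (e : J → I → ℕ) (he0 : ∀ j, e j ≠ 0)
    (he : ∀ j l, j ≠ l → e j ≠ e l ∨ (n ≠ 0 ∧ d j ≠ d l)) :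
    (AlgebraicGeometry.IsIntegral (mulVar k n d e) ∧ IsSeparated (mulStr k n d e) ∧
      LocallyOfFiniteType (mulStr k n d e) ∧ QuasiCompact (mulStr k n d e)) ∧
    ∃ (Y : Scheme.{u}) (f : Y ⟶ mulVar k n d e),
      AlgebraicGeometry.IsIntegral Y ∧ AlgebraicGeometry.IsProper f ∧
      AlgebraicGeometry.Smooth (f ≫ mulStr k n d e) ∧
      ∃ U : (mulVar k n d e).Opens, Dense (U : Set (mulVar k n d e)) ∧ IsIso (f ∣_ U) := by
  classical
  obtain ⟨p, hp⟩ := ExpChar.exists k
  choose v a hva hav using fun j => exists_va k p (e j) (he0 j)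
  have hp0 : 0 < p := expChar_pos k p
  have hq : ∀ j : J, 0 < p ^ v j := fun j => pow_pos hp0 _
  have ha' : ∀ j, ∃ i, a j i ≠ 0 := by
    intro j
    obtain ⟨i, hi⟩ := hav j
    exact ⟨i, fun h0 => hi (by rw [h0, Nat.cast_zero])⟩
  have hefun : ∀ j, (fun i => p ^ v j * a j i) = e j := fun j => funext fun i => (hva j i).symm
  obtain ⟨Gs, hGs⟩ := exists_special (k := k) p n v a d hav
    (by
      intro j l h
      simp only [hefun, Prod.mk.injEq] at h
      by_contra hjl
      rcases he j l hjl with h1 | h1
      · exact h1 h.2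
      · exact h1.2 h.1)
    (by
      intro hn j l h
      simp only [hefun] at h
      by_contra hjl
      rcases he j l hjl with h1 | h1
      · exact h1 h
      · exact h1.1 hn)
  let Tent : Coord n d e → LL k n d I := fun x =>
    (MvPolynomial.C (r0 k n d x.1) * PP (fun j => p ^ v j) a (yy k n d) x.1).coeff x.2.1
  let π : MvPolynomial (Coord n d e) k →ₐ[k] LL k n d I := MvPolynomial.aeval Tent
  have hTent : ∀ x, Tent x =
      algebraMap _ (LL k n d I) (affP k n d e (fun j => p ^ v j) a x) := by
    intro x
    rw [affP, ← MvPolynomial.coeff_map, map_mul, MvPolynomial.map_C, map_PP]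
    rfl
  have hπ : ∀ P, π P = algebraMap _ (LL k n d I)
      (MvPolynomial.aeval (affP k n d e (fun j => p ^ v j) a) P) := by
    intro P
    have h1 : π = (IsScalarTower.toAlgHom k (MvPolynomial (I ⊕ Vr n d) k)
        (LL k n d I)).comp (MvPolynomial.aeval (affP k n d e (fun j => p ^ v j) a)) := by
      apply MvPolynomial.algHom_ext
      intro j
      rw [AlgHom.comp_apply, MvPolynomial.aeval_X, MvPolynomial.aeval_X]
      exact hTent j
    rw [h1]
    rfl
  have hker : ∀ P, π P = 0 ↔ P ∈ MvPolynomial.vanishingIdeal k (locus k n d e) := by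
    intro P
    rw [hπ, ← van_iff p v a hva, map_eq_zero_iff _ (IsFractionRing.injective _ (LL k n d I))]
  let g : CoordRing k n d e →ₐ[k] LL k n d I :=
    Ideal.Quotient.liftₐ _ π fun P hP => (hker P).2 hP
  have hg : Function.Injective g := by
    rw [injective_iff_map_eq_zero]
    intro x hx
    obtain ⟨f, rfl⟩ := Ideal.Quotient.mk_surjective x
    rw [Ideal.Quotient.eq_zero_iff_mem]
    exact (hker f).1 hx
  have hgr : g.range = TA (fun j => p ^ v j) a (r0 k n d) (yy k n d) k := by
    apply le_antisymm
    · rintro _ ⟨x, rfl⟩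
      obtain ⟨f, rfl⟩ := Ideal.Quotient.mk_surjective x
      change π f ∈ TA _ a _ _ k
      have h1 : π.range ≤ TA (fun j => p ^ v j) a (r0 k n d) (yy k n d) k := by
        rw [← Algebra.adjoin_range_eq_range_aeval, Algebra.adjoin_le_iff]
        rintro _ ⟨x, rfl⟩
        exact Algebra.subset_adjoin ⟨x.1, x.2.1, rfl⟩
      exact h1 ⟨f, rfl⟩
    · rw [TA, Algebra.adjoin_le_iff]
      rintro _ ⟨i, κ, rfl⟩
      by_cases hκ : κ.degree ≤ ∑ j, e j i * d j
      · exact ⟨Ideal.Quotient.mk _ (MvPolynomial.X ⟨i, κ, hκ⟩), MvPolynomial.aeval_X _ _⟩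
      · have h1 : (MvPolynomial.C (r0 k n d i) *
            PP (fun j => p ^ v j) a (yy k n d) i).coeff κ = 0 := by
          rw [MvPolynomial.coeff_C_mul, coeff_eq_zero_of_lt (d := ∑ j, e j i * d j) ?_ κ (by omega),
            mul_zero]
          rw [PP]
          refine (MvPolynomial.totalDegree_finsetProd _ _).trans (Finset.sum_le_sum fun j _ => ?_)
          refine (MvPolynomial.totalDegree_pow _ _).trans ?_
          rw [MvPolynomial.totalDegree_expand, hva j i]
          have h2 : (GG (yy k n d : Vr n d → LL k n d I) j).totalDegree ≤ d j :=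
            Gp_totalDegree _
          calc a j i * ((GG (yy k n d : Vr n d → LL k n d I) j).totalDegree * p ^ v j) ≤
              a j i * (d j * p ^ v j) := Nat.mul_le_mul_left _ (Nat.mul_le_mul_right _ h2)
            _ = p ^ v j * a j i * d j := by ring
        rw [SetLike.mem_coe, h1]
        exact Subalgebra.zero_mem _
  have hdom : IsDomain (CoordRing k n d e) := hg.isDomain g.toRingHom
  refine ⟨isVariety_spec, ?_⟩
  have hres := hasResolution_TA (k := k) (n := n) (d := d) (fun j => p ^ v j) a hq ha' hGs
  let ee : TA (fun j => p ^ v j) a (r0 k n d) (yy k n d) k ≃ₐ[k] CoordRing k n d e :=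
    (Subalgebra.equivOfEq _ _ hgr.symm).trans (AlgEquiv.ofInjective g hg).symm
  exact hasResolution_congr ee hres

end Pool.Agent.Results.MP_19ffc6_ag.MultiplicityLoci
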