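import Pool.Agent.H413.XT.X8
import Pool.Agent.H413.XT.X14
import Pool.Agent.H413.XT.X25

/-!
MP_19ffc6_ag: resolution of singularities up to quasi-compactness, in all dimensions and over all
fields.

Let `X` be an integral projective scheme over a field `k` (of any characteristic, perfect or not).
There is an integral scheme `X'`, all of whose local rings are regular (so `X'` is locally smooth over
`k` if `k` is perfect), with a separated morphism `π : X' → X`, locally of finite type, such that:

* `π` is an isomorphism over the (open) set of ALL regular points of `X`, in particular birational;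
* for every discrete valuation ring `R` and every morphism `ψ : Spec R → X` which maps the generic
  point to a regular point of `X` there is exactly one morphism `Spec R → X'` over `ψ`: so `π` satisfies
  the valuative criterion of properness for all traits which are not contained in the singular
  locus (also for those with generic point in any subvariety not contained in the singular locus);
* `X'` is the union of an increasing sequence of open subschemes `V 0 ⊆ V 1 ⊆ …`, each `V d` is the
  set of all regular points of an integral scheme with a proper morphism to `X` which is an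
  isomorphism over all regular points of `X`, and all traits `ψ` of contact at most `d` with the
  singular locus of `X` lift to `V d`.

So `π` is a resolution of singularities of `X` if and only if `X'` is quasi-compact: everything
except quasi-compactness is proved.

`X'` is the union of the regular loci of the members of a sequence of blowings up
`… → X 2 → X 1 → X 0 = X` such that `X (d + 1) → X d` is an isomorphism over all regular points of
`X d`. The contact of a trait with the singular locus bounds the order of a Jacobian minor of the model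
at a valuation ring of rank at least two which is attached to the trait, and this order decreases
by each blowing up of the closure of a point of the singular locus along which the model is
equisingular in a weak sense; noetherian induction.
-/

set_option autoImplicit false

open AlgebraicGeometry CategoryTheory CategoryTheory.Limits

namespace Pool.Agent.Results.MP_19ffc6_ag.ResolutionUpToQuasiCompactness

/-- `X` with the morphism `f` to `Spec k` is projective over `k`: it is `Proj` of a graded
`k`-algebra with degree zero part `k`, generated by finitely many elements of degree one. -/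
def IsProjectiveOver {k : Type} [Field k] {X : Scheme.{0}} (f : X ⟶ Spec (CommRingCat.of k)) :
    Prop :=
  ∃ (A : Type) (_ : CommRing A) (_ : Algebra k A) (𝒜 : ℕ → Submodule k A) (_ : GradedAlgebra 𝒜),
    (∀ a ∈ 𝒜 0, ∃ q : k, algebraMap k A q = a) ∧
    (∃ s : Finset A, (∀ a ∈ s, a ∈ 𝒜 1) ∧ Algebra.adjoin k (s : Set A) = ⊤) ∧
    ∃ i : X ≅ Proj 𝒜,
      i.hom ≫ Proj.toSpecZero 𝒜 ≫ Spec.map (CommRingCat.ofHom (algebraMap k (𝒜 0))) = f

/-- The local ring of the scheme `X` at the point `x` is regular. -/
def IsRegularAt (X : Scheme.{0}) (x : X) : Prop := IsRegularLocalRing (X.presheaf.stalk x)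

/-- The set of regular points of `X` is open and `π` is an isomorphism over it. -/
def IsIsoOverRegularPoints {X' X : Scheme.{0}} (π : X' ⟶ X) : Prop :=
  ∃ U : X.Opens, (∀ x, x ∈ U ↔ IsRegularAt X x) ∧ IsIso (π ∣_ U)

/-- The contact of the trait `ψ` with the set of singular points of `X` is at most `d`: some
function `s` on an open set `U`, which contains the image of the trait, vanishes at all singular
points in `U` and has order at most `d` on the trait. -/
def HasContactAtMost {X : Scheme.{0}} {R : Type} [CommRing R] [IsLocalRing R]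
    (ψ : Spec (CommRingCat.of R) ⟶ X) (d : ℕ) : Prop :=
  ∃ (U : X.Opens) (h : ⊤ ≤ ψ ⁻¹ᵁ U) (s : Γ(X, U)),
    (∀ x ∈ U, ¬ IsRegularAt X x → x ∉ X.basicOpen s) ∧
    (Scheme.ΓSpecIso (CommRingCat.of R)).hom ((ψ.appLE U ⊤ h) s) ∉
      IsLocalRing.maximalIdeal R ^ (d + 1)

/-- The open subscheme `V` of `X'` is, over `X`, the set of all regular points of an integral
scheme `Y` with a proper morphism `b : Y → X` which is an isomorphism over all regular points
of `X`. -/
def IsRegularLocusOfModification {X' X : Scheme.{0}} (π : X' ⟶ X) (V : X'.Opens) : Prop :=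
  ∃ (Y : Scheme.{0}) (b : Y ⟶ X) (j : V.toScheme ⟶ Y), IsIntegral Y ∧ IsProper b ∧
    IsIsoOverRegularPoints b ∧ IsOpenImmersion j ∧ (∀ y, y ∈ Set.range j ↔ IsRegularAt Y y) ∧
    j ≫ b = V.ι ≫ π

/-- Let `X` be an integral projective scheme over a field `k`. There is an integral regular
scheme `X'` with a separated morphism `π : X' → X`, locally of finite type, which is an isomorphism
over the set of all regular points of `X`, such that for all discrete valuation rings `R` every
`ψ : Spec R → X` which maps the generic point to a regular point lifts uniquely to `X'`. Moreover,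
`X'` is the union of increasing open subschemes `V d`, which are the regular loci of integral schemes
proper over `X`, such that all traits of contact at most `d` with the singular locus of `X` lift to
`V d`. -/
theorem result (k : Type) [Field k] (X : Scheme.{0}) [IsIntegral X]
    (f : X ⟶ Spec (CommRingCat.of k)) (hX : IsProjectiveOver f) :
    ∃ (X' : Scheme.{0}) (π : X' ⟶ X), IsIntegral X' ∧ (∀ x, IsRegularAt X' x) ∧
      IsSeparated π ∧ LocallyOfFiniteType π ∧ IsIsoOverRegularPoints π ∧
      (∀ (R : Type) [CommRing R] [IsDomain R] [IsDiscreteValuationRing R]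
        (ψ : Spec (CommRingCat.of R) ⟶ X), IsRegularAt X (ψ (⊥ : PrimeSpectrum R)) →
        ∃! ψ' : Spec (CommRingCat.of R) ⟶ X', ψ' ≫ π = ψ) ∧
      ∃ V : ℕ → X'.Opens, Monotone V ∧ (∀ x, ∃ d, x ∈ V d) ∧
        (∀ d, IsRegularLocusOfModification π (V d)) ∧
        ∀ (d : ℕ) (R : Type) [CommRing R] [IsDomain R] [IsDiscreteValuationRing R]
          (ψ : Spec (CommRingCat.of R) ⟶ X), HasContactAtMost ψ d →
          ∃ ψ' : Spec (CommRingCat.of R) ⟶ X', ψ' ≫ π = ψ ∧ Set.range ψ' ⊆ (V d : Set X') := by
  obtain ⟨A, _, _, 𝒜, _, h0, ⟨s, hs, hgen⟩, i, hif⟩ := hX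
  obtain ⟨F, _, _, M, g, hg, hg0, e, hM, he, -⟩ :=
    Pool.Agent.H413.XT.h413_proj_model 𝒜 f h0 s hs hgen i hif
  have hHJ : Pool.Agent.TH188.QS.HJ k := Pool.Agent.TH188.QS.hj_field
  have hSR : Pool.Agent.H413.BR.SR k F := Pool.Agent.H413.BR.sr_hj hHJ
  obtain ⟨D, N, hNfin, hN, hNreg⟩ :=
    Pool.Agent.H413.XT.h413_exists_forms hHJ hSR hM ⟨g, hg, hg0⟩
  obtain ⟨K, hK, hiso, hlift⟩ := Pool.Agent.H413.BR.seq_field M hM ⟨g, hg, hg0⟩ D N hNfin hN
    (fun g hg hg0 P _ h => (hNreg g hg hg0 P).1 h)
  obtain ⟨X', π, h1, h2, h3, h4, h5, h6, V, h7, h8, h9, h10⟩ :=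
    Pool.Agent.H413.XT.h413_final_gen (algebraMap k F).injective hHJ hSR hM e g hg hg0 hNfin hN hNreg
      hK hiso (fun _ _ _ _ => True) (fun _ _ _ _ _ _ h => h)
      (fun d g hg hg0 R _ _ _ γ h _ => hlift d g hg hg0 R γ h)
  obtain ⟨U, hU, hUiso⟩ := h5
  have hp : IsProper f := by
    have := Pool.Agent.H968R2.Quad.modelMap_isProper M (algebraMap k F).injective hM
    rw [← he]
    infer_instance
  obtain ⟨d₀, hd₀⟩ := Pool.Agent.H413.XT.upgrade (Pool.Agent.H413.XT.all_compact f) π U hU hUiso
    V h7 h8 h9
  refine ⟨X', π, h1, h2, h3, h4, ⟨U, hU, hUiso⟩, fun R _ _ _ ψ hψ => h6 R ψ ⟨0, trivial⟩ hψ,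
    fun d => V (d + d₀), fun a b hab => h7 (Nat.add_le_add_right hab d₀), fun x => ?_,
    fun d => hd₀ _ (Nat.le_add_left d₀ d), fun d R _ _ _ ψ hψ => ?_⟩
  · obtain ⟨d, hd⟩ := h8 x
    exact ⟨d, h7 (Nat.le_add_right d d₀) hd⟩
  · obtain ⟨ψ', e1, e2⟩ := h10 d R ψ hψ trivial
    exact ⟨ψ', e1, fun x hx => h7 (Nat.le_add_right d d₀) (e2 hx)⟩

end Pool.Agent.Results.MP_19ffc6_ag.ResolutionUpToQuasiCompactness
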